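import Pool.Agent.H97.CRMap

set_option autoImplicit false

namespace Pool.Agent.Results.MP_c4ba3a_an.Counter

open Pool.Agent.H97.CR

theorem result :
    ∃ (m n N : ℕ) (Ψ : (Fin m → ℝ) → (Fin n → ℂ)) (x₀ : Fin m → ℝ)
      (f : (Fin n → ℂ) → EuclideanSpace ℂ (Fin N)),
      n < N ∧ IsAnalyticEmbedding Ψ ∧ IsGeneric Ψ ∧ IsMinimalAt Ψ x₀ ∧
      ContinuousOn f (Set.range Ψ) ∧ (∀ y ∈ Set.range Ψ, ‖f y‖ = 1) ∧ IsCR Ψ f ∧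
      ExtendsMero (Set.range Ψ) f (Ψ x₀) ∧ ¬ ExtendsHol (Set.range Ψ) f (Ψ x₀) :=
  ⟨6, 4, 5, Psi, 0, ff, by norm_num, Psi_embedding, Psi_generic, Psi_minimal, ff_cont,
    by rintro _ ⟨x, rfl⟩; exact ff_norm x, ff_cr, ff_mero, ff_not_hol⟩

end Pool.Agent.Results.MP_c4ba3a_an.Counter
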